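import Mathlib
import Pool.Agent.Y253.TR.ConeMain

/-!
# The cone with vertex `Δ` spanned by the conditionally finite-dimensional tracial states

Let `G` be the group generated by `x ↦ 2 x`, `x ↦ 3 x`, `x ↦ x + 1` on `ℚ`, a copy of
`ℤ² ⋉ ℤ[1/6]`.  The tracial states of `C*(G)` are the normalised positive definite class functions
`φ` on `G`; the regular trace `Δ` is the indicator function of `1`.  Off the identity every real
multiple, positive or negative, of every tracial state is a pointwise limit of nonnegative multiples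
of conditionally finite-dimensional tracial states: the closed convex cone with vertex `Δ` spanned by
the conditionally finite-dimensional tracial states is a linear space and contains all tracial
states.

For the measures on the circle this rests on the positive Livsic theorem of `Pool.Agent.Y315.LV`
(helper315).
-/

set_option autoImplicit false

open scoped ComplexOrder

namespace Pool.Agent.Results.MP_81910f_an.ClosedCone

/-- **The closed cone of the conditionally finite-dimensional tracial states.**  For every tracial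
state `φ` (extreme or not), every finite set `F` of elements `g ≠ 1` of `G`, every real `s` and every
`ε > 0` there are `T ≥ 0` and a conditionally finite-dimensional tracial state `ψ` (one whose
translates by the translations span a finite-dimensional space) with `|s φ (g) - T ψ (g)| < ε` for
all `g ∈ F`. -/
theorem result (s2 s3 t : Equiv.Perm ℚ) (h2 : ∀ x : ℚ, s2 x = 2 * x) (h3 : ∀ x : ℚ, s3 x = 3 * x)
    (ht : ∀ x : ℚ, t x = x + 1) (G : Subgroup (Equiv.Perm ℚ))
    (hG : G = Subgroup.closure {s2, s3, t}) (φ : G → ℂ)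
    (hφ : φ ∈ {ψ : G → ℂ | ψ 1 = 1 ∧ (∀ g h : G, ψ (h * g * h⁻¹) = ψ g) ∧
      ∀ (s : Finset G) (c : G → ℂ), 0 ≤ ∑ i ∈ s, ∑ j ∈ s, star (c j) * c i * ψ (j⁻¹ * i)})
    (F : Finset G) (hF : (1 : G) ∉ F) (s ε : ℝ) (hε : 0 < ε) :
    ∃ T : ℝ, 0 ≤ T ∧
      ∃ ψ ∈ {ψ : G → ℂ | ψ 1 = 1 ∧ (∀ g h : G, ψ (h * g * h⁻¹) = ψ g) ∧
        ∀ (s : Finset G) (c : G → ℂ), 0 ≤ ∑ i ∈ s, ∑ j ∈ s, star (c j) * c i * ψ (j⁻¹ * i)},
        FiniteDimensional ℂ (Submodule.span ℂ {F : G → ℂ | ∃ n : G,
          (∃ r : ℚ, ∀ x : ℚ, (n : Equiv.Perm ℚ) x = x + r) ∧ F = fun x => ψ (n * x)}) ∧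
        ∀ g ∈ F, ‖(s : ℂ) * φ g - T * ψ g‖ < ε :=
  Pool.Agent.Y253.TR.cone h2 h3 ht hG hφ F hF s hε

end Pool.Agent.Results.MP_81910f_an.ClosedCone
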