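import Pool.Agent.Y139.GR.Inv
import Pool.Agent.TH463.UQ.Trace

/-!
# Extreme tracial states of `C*(ℤ² ⋉ ℤ[1/6])` whose nonzero values are bounded away from zero

Let `G` be the group generated by `x ↦ 2 x`, `x ↦ 3 x`, `x ↦ x + 1` on `ℚ`, a copy of
`ℤ² ⋉ ℤ[1/6]`.  The tracial states of `C*(G)` are the normalised positive definite class functions
`φ` on `G`.  For an extreme one, the dichotomy of the problem (`φ` is the regular trace or is
conditionally finite-dimensional) holds if and only if the nonzero values of `φ` on the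
translations are bounded away from zero, if and only if this holds for the values on the powers of
some translation.
-/

set_option autoImplicit false

open MeasureTheory Filter Topology
open scoped ComplexOrder

namespace Pool.Agent.Results.MP_81910f_an.GapTraces

open Pool.Agent.TH654.FC Pool.Agent.W763.Tr Pool.Agent.TH463.UQ Pool.Agent.Y139.GR

section

variable {G : Subgroup (Equiv.Perm ℚ)} {τ : ℤ → G} {φ : G → ℂ} {S6 : G} {μ : Measure UnitAddCircle}

/-- the value at a translation is the value at an integral translation -/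
lemma val_trans (D : Data G τ φ S6 μ) {g : G} {r : ℚ} (hg : ∀ x, (g : Equiv.Perm ℚ) x = x + r) :
    ∃ m : ℤ, φ g = φ (τ m) := by
  obtain ⟨m, hm⟩ := D.pow hg
  refine ⟨m, ?_⟩
  have := hm 1
  rwa [pow_one, Nat.cast_one, mul_one] at this

/-- a kernel makes the values on the integral translations periodic -/
lemma periodic (D : Data G τ φ S6 μ) {M : ℕ} (hM : ∀ n : ℤ, φ (τ (M * n)) = 1) (m : ℤ) :
    φ (τ m) = φ (τ (m % M)) := by
  have h1 : φ (τ (M * (m / M))) = 1 := hM _
  have h2 := D.hpd.mul_of_eq_one D.h1 h1 (τ (m % M))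
  rw [tau_add D.hτ] at h2
  rw [← h2]
  congr 2
  have := Int.emod_add_mul_ediv m M
  linarith

end

/-- **Extreme tracial states with a gap.**  For an extreme tracial state `φ` of `C*(ℤ² ⋉ ℤ[1/6])`
(an extreme point of the set of normalised positive definite class functions of the group `G`
generated by `x ↦ 2 x`, `x ↦ 3 x`, `x ↦ x + 1`) the following are equivalent:
* `φ` is the regular trace or is conditionally finite-dimensional (its translates by the
  translations span a finite-dimensional space);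
* the nonzero values of `φ` on the translations are bounded away from `0`;
* for some nontrivial translation `g` the nonzero values `φ (g ^ n)`, `n ≥ 0`, are bounded away
  from `0`. -/
theorem result (s2 s3 t : Equiv.Perm ℚ) (h2 : ∀ x : ℚ, s2 x = 2 * x) (h3 : ∀ x : ℚ, s3 x = 3 * x)
    (ht : ∀ x : ℚ, t x = x + 1) (G : Subgroup (Equiv.Perm ℚ))
    (hG : G = Subgroup.closure {s2, s3, t}) (φ : G → ℂ)
    (hφ : φ ∈ Set.extremePoints ℝ {ψ : G → ℂ | ψ 1 = 1 ∧ (∀ g h : G, ψ (h * g * h⁻¹) = ψ g) ∧
      ∀ (s : Finset G) (c : G → ℂ), 0 ≤ ∑ i ∈ s, ∑ j ∈ s, star (c j) * c i * ψ (j⁻¹ * i)}) :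
    List.TFAE [
      φ = Set.indicator ({1} : Set G) (fun _ => (1 : ℂ)) ∨
        FiniteDimensional ℂ (Submodule.span ℂ {F : G → ℂ | ∃ n : G,
          (∃ r : ℚ, ∀ x : ℚ, (n : Equiv.Perm ℚ) x = x + r) ∧ F = fun x => φ (n * x)}),
      ∃ δ : ℝ, 0 < δ ∧ ∀ g : G, (∃ r : ℚ, ∀ x : ℚ, (g : Equiv.Perm ℚ) x = x + r) →
        φ g = 0 ∨ δ ≤ ‖φ g‖,
      ∃ g : G, g ≠ 1 ∧ (∃ r : ℚ, ∀ x : ℚ, (g : Equiv.Perm ℚ) x = x + r) ∧
        ∃ δ : ℝ, 0 < δ ∧ ∀ n : ℕ, φ (g ^ n) = 0 ∨ δ ≤ ‖φ (g ^ n)‖] := by
  obtain ⟨h1, hcl, hpd⟩ := hφ.1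
  obtain ⟨τ, S6, μ, D⟩ := data_of h2 h3 ht hG h1 hcl hpd
  have := D.prob
  tfae_have 1 → 2 := by
    rintro (h | h)
    · refine ⟨1, one_pos, fun g _ => ?_⟩
      rw [h]
      by_cases hg : g = 1
      · right
        rw [Set.indicator_of_mem (by simpa using hg)]
        simp
      · left
        rw [Set.indicator_of_notMem (by simpa using hg)]
    · obtain ⟨M, hM1, hM⟩ := exists_kernel D.hτ D.hμ D.h2 h
      classical
      have hMpos : (0 : ℤ) < M := by exact_mod_cast hM1
      set V : Finset ℂ := ((Finset.range M).image fun k : ℕ => φ (τ k)).filter fun z => z ≠ 0 with hV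
      obtain ⟨δ, hδ, hδV⟩ : ∃ δ : ℝ, 0 < δ ∧ ∀ z ∈ V, δ ≤ ‖z‖ := by
        rcases V.eq_empty_or_nonempty with hE | hne
        · exact ⟨1, one_pos, fun z hz => by rw [hE] at hz; simp at hz⟩
        · obtain ⟨z0, hz0, hmin⟩ := V.exists_min_image (fun z => ‖z‖) hne
          refine ⟨‖z0‖, ?_, hmin⟩
          rw [hV, Finset.mem_filter] at hz0
          exact norm_pos_iff.2 hz0.2
      refine ⟨δ, hδ, ?_⟩
      rintro g ⟨r, hg⟩
      obtain ⟨m, hm⟩ := val_trans D hg
      by_cases h0 : φ g = 0
      · exact Or.inl h0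
      · right
        apply hδV
        rw [hV, Finset.mem_filter, Finset.mem_image]
        refine ⟨⟨(m % M).toNat, ?_, ?_⟩, h0⟩
        · rw [Finset.mem_range]
          have := Int.emod_lt_of_pos m hMpos
          have := Int.emod_nonneg m hMpos.ne'
          omega
        · rw [Int.toNat_of_nonneg (Int.emod_nonneg m hMpos.ne'), hm, periodic D hM m]
  tfae_have 2 → 3 := by
    rintro ⟨δ, hδ, h⟩
    refine ⟨τ 1, ?_, ⟨1, fun x => by rw [D.hτ]; simp⟩, δ, hδ, fun n => ?_⟩
    · intro h0
      have := D.hτ 1 0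
      rw [h0] at this
      simp at this
    · apply h
      refine ⟨n, fun x => ?_⟩
      induction n generalizing x with
      | zero => simp
      | succ n ih =>
        rw [pow_succ, Subgroup.coe_mul, Equiv.Perm.mul_apply, D.hτ, ih]
        push_cast; ring
  tfae_have 3 → 1 := by
    rintro ⟨g, hg1, ⟨r, hg⟩, δ, hδ, hgap⟩
    rcases finite_or_atomless D hφ with hfin | hat
    · exact Or.inr hfin
    · left
      obtain ⟨m, hm0, hm⟩ := pow' D hg1 hg
      -- values at negative integers
      have hneg : ∀ n : ℤ, φ (τ (-n)) = star (φ (τ n)) := by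
        intro n
        rw [← D.hμ, ← D.hμ]
        have : ∀ x : UnitAddCircle, (fourier (-n) x : ℂ) = (starRingEnd ℂ) (fourier n x) := by
          intro x
          rw [fourier_neg]
        simp_rw [this]
        exact integral_conj
      have hd : 1 ≤ m.natAbs := Int.natAbs_pos.2 hm0
      have hgap' : ∀ n : ℤ, fc μ ((m.natAbs : ℤ) * n) = 0 ∨ δ ≤ ‖fc μ ((m.natAbs : ℤ) * n)‖ := by
        have key : ∀ k : ℤ, φ (τ (m * k)) = 0 ∨ δ ≤ ‖φ (τ (m * k))‖ := by
          intro k
          rcases le_total 0 k with hk | hk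
          · obtain ⟨n, rfl⟩ := Int.eq_ofNat_of_zero_le hk
            have := hgap n
            rwa [hm] at this
          · obtain ⟨n, hn⟩ := Int.eq_ofNat_of_zero_le (neg_nonneg.2 hk)
            have h5 := hgap n
            rw [hm] at h5
            have h6 : m * k = -(m * (n : ℤ)) := by
              rw [← hn]; ring
            rw [h6, hneg]
            rcases h5 with h5 | h5
            · left; rw [h5, star_zero]
            · right; rwa [norm_star]
        intro n
        have h7 : fc μ ((m.natAbs : ℤ) * n) = φ (τ ((m.natAbs : ℤ) * n)) := D.hμ _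
        rw [h7]
        rcases Int.natAbs_eq m with hmm | hmm
        · rw [← hmm]; exact key n
        · have h8 : (m.natAbs : ℤ) * n = m * (-n) := by
            conv_rhs => rw [hmm]
            ring
          rw [h8]
          exact key (-n)
      have hvol : μ = volume := rigid hat (p := 2) le_rfl D.mp2 hd hδ hgap'
      have hz : ∀ n : ℤ, n ≠ 0 → φ (τ n) = 0 := by
        intro n hn
        rw [← D.hμ, hvol]
        have := fc_volume n
        unfold fc at this
        rw [this, if_neg hn]
      funext g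
      by_cases hg : g = 1
      · rw [Set.indicator_of_mem (by simpa using hg), hg, D.h1]
      · rw [Set.indicator_of_notMem (by simpa using hg)]
        exact eq_regular D.hτ D.h1 D.hcl D.hpd S6 D.hS6 D.hform hz g hg
  tfae_finish

end Pool.Agent.Results.MP_81910f_an.GapTraces
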