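import Mathlib
import Pool.Agent.Y253.TR.MomMain

/-!
# Conditionally finite-dimensional extreme traces and the moments of one sequence of averages

Let `G` be the group generated by `x ↦ 2 x`, `x ↦ 3 x`, `x ↦ x + 1` on `ℚ`, a copy of
`ℤ² ⋉ ℤ[1/6]`.  The tracial states of `C*(G)` are the normalised positive definite class functions
`φ` on `G`.  For a translation `g` let `A_L (g) = (1 / L) ∑_{i < L} g ^ (Q ^ i)` in the group ring.
An extreme tracial state is conditionally finite-dimensional if and only if for one translation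
`g ≠ 1`, one constant `c ≠ 0` and one `k` the moments `φ (|A_L (g) - c| ^ (2 k))` have a finite sum
over `L`.

For the measures on the circle this rests on `Pool.Agent.Y315.SC` (helper315).
-/

set_option autoImplicit false

open scoped ComplexOrder

namespace Pool.Agent.Results.MP_81910f_an.SummableMoments

/-- the linear extension of `φ` to the group ring: `ext φ (∑ a_h h) = ∑ a_h φ (h)` -/
noncomputable def ext {H : Type*} (φ : H → ℂ) (x : MonoidAlgebra ℂ H) : ℂ :=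
  x.coeff.sum fun h a => a * φ h

/-- the element `(1 / L) ∑_{i < L} g ^ (Q ^ i) - c` of the group ring -/
noncomputable def dev {H : Type*} [Group H] (Q : ℕ) (g : H) (c : ℂ) (L : ℕ) : MonoidAlgebra ℂ H :=
  (L : ℂ)⁻¹ • ∑ i ∈ Finset.range L, MonoidAlgebra.of ℂ H (g ^ (Q ^ i)) - c • 1

/-- **One summable moment.**  Let `Q ≥ 2` be odd or `Q ≡ 1 (mod 3)` (for instance `Q = 3` or
`Q = 4`). An extreme tracial state `φ` is conditionally finite-dimensional (its translates by the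
translations span a finite-dimensional space) if and only if there are a translation `g ≠ 1` in `G`,
a complex number `c ≠ 0` and a `k` such that the moments `φ (((A - c) (A - c)^*) ^ k)` of
`A = A_L (g) = (1 / L) ∑_{i < L} g ^ (Q ^ i)` have a finite sum over `L`; here `(A - c)^*` is
`(1 / L) ∑_{i < L} (g⁻¹) ^ (Q ^ i) - conj c`. -/
theorem result (s2 s3 t : Equiv.Perm ℚ) (h2 : ∀ x : ℚ, s2 x = 2 * x) (h3 : ∀ x : ℚ, s3 x = 3 * x)
    (ht : ∀ x : ℚ, t x = x + 1) (G : Subgroup (Equiv.Perm ℚ))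
    (hG : G = Subgroup.closure {s2, s3, t}) (φ : G → ℂ)
    (hφ : φ ∈ Set.extremePoints ℝ {ψ : G → ℂ | ψ 1 = 1 ∧ (∀ g h : G, ψ (h * g * h⁻¹) = ψ g) ∧
      ∀ (s : Finset G) (c : G → ℂ), 0 ≤ ∑ i ∈ s, ∑ j ∈ s, star (c j) * c i * ψ (j⁻¹ * i)})
    (Q : ℕ) (hQ2 : 2 ≤ Q) (hQ : Q % 2 = 1 ∨ Q % 3 = 1) :
    FiniteDimensional ℂ (Submodule.span ℂ {F : G → ℂ | ∃ n : G,
        (∃ r : ℚ, ∀ x : ℚ, (n : Equiv.Perm ℚ) x = x + r) ∧ F = fun x => φ (n * x)}) ↔
      ∃ g : G, g ≠ 1 ∧ (∃ r : ℚ, ∀ x : ℚ, (g : Equiv.Perm ℚ) x = x + r) ∧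
        ∃ c : ℂ, c ≠ 0 ∧ ∃ k : ℕ, Summable fun L : ℕ =>
          ext φ ((dev Q g c L * dev Q g⁻¹ (star c) L) ^ k) :=
  Pool.Agent.Y253.TR.moments h2 h3 ht hG hφ hQ2 hQ

end Pool.Agent.Results.MP_81910f_an.SummableMoments
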