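import Mathlib
import Pool.Agent.Y253.TR.ValMain

/-!
# Sharp bounds for the values of the tracial states of `C*(ℤ² ⋉ ℤ[1/6])` at the translations

Let `G` be the group generated by `x ↦ 2 x`, `x ↦ 3 x`, `x ↦ x + 1` on `ℚ`, a copy of
`ℤ² ⋉ ℤ[1/6]`.  The tracial states of `C*(G)` are the normalised positive definite class functions
`φ` on `G`.  Every value `φ (g)` at a nontrivial translation `g` lies in an explicit region, and for
half of all directions the greatest value over all tracial states is computed; it is attained by a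
conditionally finite-dimensional one.

The bounds for one Fourier coefficient of a measure on the circle invariant under `x ↦ 2 x` and
`x ↦ 3 x` are those of `Pool.Agent.Y315.FC` (helper315).
-/

set_option autoImplicit false

open scoped ComplexOrder

namespace Pool.Agent.Results.MP_81910f_an.ValueRegion

/-- **Sharp bounds for the values of the tracial states at a translation.**  Let `g ≠ 1` be any
translation in `G`.  For all tracial states `φ` (extreme or not) `|Im φ (g)| ≤ √23 / 22` and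
`Re φ (g) ≥ -1/4 + (9 √23 / 46) |Im φ (g)|`.  For every phase `θ` with `cos θ ≤ 0` the greatest
value of `Re (e^(-iθ) φ (g))` over all tracial states is
`max (-cos θ / 4) ((√23 |sin θ| - cos θ) / 22)`, and a conditionally finite-dimensional tracial state
(one whose translates by the translations span a finite-dimensional space) attains it. -/
theorem result (s2 s3 t : Equiv.Perm ℚ) (h2 : ∀ x : ℚ, s2 x = 2 * x) (h3 : ∀ x : ℚ, s3 x = 3 * x)
    (ht : ∀ x : ℚ, t x = x + 1) (G : Subgroup (Equiv.Perm ℚ))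
    (hG : G = Subgroup.closure {s2, s3, t}) (g : G) (hg1 : g ≠ 1)
    (hg : ∃ r : ℚ, ∀ x : ℚ, (g : Equiv.Perm ℚ) x = x + r) :
    (∀ φ ∈ {ψ : G → ℂ | ψ 1 = 1 ∧ (∀ g h : G, ψ (h * g * h⁻¹) = ψ g) ∧
        ∀ (s : Finset G) (c : G → ℂ), 0 ≤ ∑ i ∈ s, ∑ j ∈ s, star (c j) * c i * ψ (j⁻¹ * i)},
      |(φ g).im| ≤ Real.sqrt 23 / 22 ∧
      -1 / 4 + 9 * Real.sqrt 23 / 46 * |(φ g).im| ≤ (φ g).re) ∧
    ∀ θ : ℝ, Real.cos θ ≤ 0 →
      ∃ φ ∈ {ψ : G → ℂ | ψ 1 = 1 ∧ (∀ g h : G, ψ (h * g * h⁻¹) = ψ g) ∧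
        ∀ (s : Finset G) (c : G → ℂ), 0 ≤ ∑ i ∈ s, ∑ j ∈ s, star (c j) * c i * ψ (j⁻¹ * i)},
        FiniteDimensional ℂ (Submodule.span ℂ {F : G → ℂ | ∃ n : G,
          (∃ r : ℚ, ∀ x : ℚ, (n : Equiv.Perm ℚ) x = x + r) ∧ F = fun x => φ (n * x)}) ∧
        (φ g * Complex.exp (-θ * Complex.I)).re =
          max (-Real.cos θ / 4) ((Real.sqrt 23 * |Real.sin θ| - Real.cos θ) / 22) ∧
        ∀ ψ ∈ {ψ : G → ℂ | ψ 1 = 1 ∧ (∀ g h : G, ψ (h * g * h⁻¹) = ψ g) ∧
          ∀ (s : Finset G) (c : G → ℂ), 0 ≤ ∑ i ∈ s, ∑ j ∈ s, star (c j) * c i * ψ (j⁻¹ * i)},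
          (ψ g * Complex.exp (-θ * Complex.I)).re ≤ (φ g * Complex.exp (-θ * Complex.I)).re :=
  Pool.Agent.Y253.TR.value_region h2 h3 ht hG hg1 hg

end Pool.Agent.Results.MP_81910f_an.ValueRegion
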